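import Pool.Agent.W443.J6.Stms2

set_option autoImplicit false

open MvPolynomial Pool.Agent.H938R2.JC Pool.Agent.W443.J6

namespace Pool.Agent.W924.J6

/-- polynomials in two variables -/
abbrev P2 : Type := MvPolynomial (Fin 2) ℂ

lemma td_iff (d : ℕ) (P : P2) :
    P.totalDegree ≤ d ↔ ∀ r, coeff r P ≠ 0 → r 0 + r 1 ≤ d := by
  rw [totalDegree, Finset.sup_le_iff]
  refine forall_congr' fun r => ?_
  rw [mem_support_iff, Finsupp.sum_fintype _ _ (fun _ => rfl), Fin.sum_univ_two]

lemma td_aeval (s : Fin 2 → P2) (hs : ∀ i, (s i).totalDegree ≤ 1) (P : P2) :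
    (aeval s P : P2).totalDegree ≤ P.totalDegree := by
  rw [aeval_def, eval₂_eq']
  refine totalDegree_finsetSum_le fun d hd => ?_
  refine (totalDegree_mul _ _).trans ?_
  have h1 : ((algebraMap ℂ P2) (coeff d P)).totalDegree = 0 := totalDegree_C _
  rw [h1, zero_add]
  refine (totalDegree_finsetProd _ _).trans ?_
  have h2 : ∑ i : Fin 2, (s i ^ d i).totalDegree ≤ ∑ i : Fin 2, d i := by
    refine Finset.sum_le_sum fun i _ => (totalDegree_pow _ _).trans ?_
    exact (Nat.mul_le_mul_left _ (hs i)).trans (by omega)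
  refine h2.trans ?_
  have h3 := le_totalDegree hd
  rwa [Finsupp.sum_fintype _ _ (fun _ => rfl)] at h3

/-- the substitution -/
noncomputable abbrev T : P2 →ₐ[ℂ] P2 := aeval ![X 0 - 1, X 1 + 1 - X 0]

/-- the inverse substitution -/
noncomputable abbrev Si : P2 →ₐ[ℂ] P2 := aeval ![X 0 + 1, X 0 + X 1]

lemma tdX (i : Fin 2) : (X i : P2).totalDegree ≤ 1 := (totalDegree_X i).le

lemma td_T (P : P2) : (T P).totalDegree ≤ P.totalDegree := by
  refine td_aeval _ (fun i => ?_) P
  fin_cases i
  · change (X 0 - 1 : P2).totalDegree ≤ 1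
    refine (totalDegree_sub _ _).trans (max_le (tdX 0) ?_)
    rw [totalDegree_one]
    exact Nat.zero_le _
  · change (X 1 + 1 - X 0 : P2).totalDegree ≤ 1
    refine (totalDegree_sub _ _).trans (max_le ?_ (tdX 0))
    refine (totalDegree_add _ _).trans (max_le (tdX 1) ?_)
    rw [totalDegree_one]
    exact Nat.zero_le _

lemma td_Si (P : P2) : (Si P).totalDegree ≤ P.totalDegree := by
  refine td_aeval _ (fun i => ?_) P
  fin_cases i
  · change (X 0 + 1 : P2).totalDegree ≤ 1
    refine (totalDegree_add _ _).trans (max_le (tdX 0) ?_)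
    rw [totalDegree_one]
    exact Nat.zero_le _
  · change (X 0 + X 1 : P2).totalDegree ≤ 1
    exact (totalDegree_add _ _).trans (max_le (tdX 0) (tdX 1))

lemma Si_T (P : P2) : Si (T P) = P := by
  have h : Si.comp T = AlgHom.id ℂ P2 := by
    apply MvPolynomial.algHom_ext
    intro i
    rw [AlgHom.comp_apply, T, aeval_X, AlgHom.id_apply]
    fin_cases i
    · change Si (X 0 - 1) = X 0
      rw [map_sub, map_one, Si, aeval_X]
      simp
    · change Si (X 1 + 1 - X 0) = X 1
      rw [map_sub, map_add, map_one, Si, aeval_X, aeval_X]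
      simp only [Matrix.cons_val_zero, Matrix.cons_val_one]
      ring
  exact congrArg (fun f => f P) h

lemma T_add : T (X 0 + X 1) = X 1 := by
  rw [map_add, T, aeval_X, aeval_X]
  simp only [Matrix.cons_val_zero, Matrix.cons_val_one]
  ring

lemma top_T (P : P2) (d : ℕ) (h1 : ∀ r, coeff r P ≠ 0 → r 0 + r 1 ≤ d)
    (h2 : ∃ r, coeff r P ≠ 0 ∧ r 0 + r 1 = d) : Top 1 1 (d : ℤ) (T P) := by
  have hd : P.totalDegree = d := by
    apply le_antisymm
    · rw [td_iff]
      exact h1
    · obtain ⟨r, hr, hr'⟩ := h2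
      have h3 := (td_iff P.totalDegree P).1 le_rfl r hr
      omega
  have hT : (T P).totalDegree = d := by
    apply le_antisymm
    · rw [← hd]
      exact td_T P
    · have h3 := td_Si (T P)
      rw [Si_T, hd] at h3
      exact h3
  have hne : T P ≠ 0 := by
    intro h
    have h3 := Si_T P
    rw [h, map_zero] at h3
    obtain ⟨r, hr, -⟩ := h2
    rw [← h3] at hr
    exact hr (coeff_zero r)
  refine ⟨fun r hr => ?_, ?_⟩
  · have h3 := (td_iff d (T P)).1 hT.le r hr
    push_cast
    omega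
  · obtain ⟨r, hr, hr'⟩ := Finset.exists_mem_eq_sup (T P).support
      (support_nonempty.2 hne) (fun s => s.sum fun _ e => e)
    refine ⟨r, mem_support_iff.1 hr, ?_⟩
    have h3 : (T P).totalDegree = r 0 + r 1 := by
      rw [totalDegree, hr', Finsupp.sum_fintype _ _ (fun _ => rfl), Fin.sum_univ_two]
    rw [hT] at h3
    omega

/-- the corner of a trapezoid -/
lemma corner (P : P2) (p q : ℕ) (hpq : 0 < p + q)
    (h : convexHull ℝ (insert ((0 : ℝ), (0 : ℝ))
        ((fun d : Fin 2 →₀ ℕ => ((d 0 : ℝ), (d 1 : ℝ))) '' (↑P.support : Set (Fin 2 →₀ ℕ))))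
        = {z : ℝ × ℝ | 0 ≤ z.2 ∧ z.2 ≤ (q : ℝ) ∧ 0 ≤ z.1 ∧ z.1 ≤ (p : ℝ) + (q : ℝ) - z.2}) :
    coeff (e p q) P ≠ 0 ∧ ∀ r, coeff r P ≠ 0 → r 1 ≤ q ∧ r 0 + r 1 ≤ p + q := by
  have h1 : ∀ r, coeff r P ≠ 0 → r 1 ≤ q ∧ r 0 + r 1 ≤ p + q := by
    intro r hr
    have h2 : ((r 0 : ℝ), (r 1 : ℝ)) ∈ convexHull ℝ (insert ((0 : ℝ), (0 : ℝ))
        ((fun d : Fin 2 →₀ ℕ => ((d 0 : ℝ), (d 1 : ℝ))) '' (↑P.support : Set (Fin 2 →₀ ℕ)))) := by
      apply subset_convexHull
      exact Set.mem_insert_of_mem _ ⟨r, by rw [Finset.mem_coe, mem_support_iff]; exact hr, rfl⟩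
    rw [h] at h2
    obtain ⟨-, h3, -, h4⟩ := h2
    simp only at h3 h4
    refine ⟨by exact_mod_cast h3, ?_⟩
    have h5 : (r 0 : ℝ) + (r 1 : ℝ) ≤ (p : ℝ) + (q : ℝ) := by linarith
    exact_mod_cast h5
  refine ⟨?_, h1⟩
  intro h0
  have hsub : convexHull ℝ (insert ((0 : ℝ), (0 : ℝ))
        ((fun d : Fin 2 →₀ ℕ => ((d 0 : ℝ), (d 1 : ℝ))) '' (↑P.support : Set (Fin 2 →₀ ℕ))))
        ⊆ {z : ℝ × ℝ | z.1 + 2 * z.2 ≤ (p : ℝ) + 2 * (q : ℝ) - 1} := by
    apply convexHull_min
    · rintro z (rfl | ⟨r, hr, rfl⟩)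
      · have h2 : (1 : ℝ) ≤ (p : ℝ) + 2 * (q : ℝ) := by
          have : 1 ≤ p + 2 * q := by omega
          exact_mod_cast this
        simp only [Set.mem_setOf_eq]
        linarith
      · rw [Finset.mem_coe, mem_support_iff] at hr
        obtain ⟨h2, h3⟩ := h1 r hr
        have hne : ¬ (r 0 = p ∧ r 1 = q) := by
          rintro ⟨h4, h5⟩
          apply hr
          rw [eq_e r, h4, h5, h0]
        have h6 : r 0 + 2 * r 1 + 1 ≤ p + 2 * q := by omega
        have h7 : (r 0 : ℝ) + 2 * (r 1 : ℝ) + 1 ≤ (p : ℝ) + 2 * (q : ℝ) := by exact_mod_cast h6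
        simp only [Set.mem_setOf_eq]
        linarith
    · have hl : IsLinearMap ℝ fun z : ℝ × ℝ => z.1 + 2 * z.2 := by
        refine ⟨fun x y => ?_, fun c x => ?_⟩
        · simp only [Prod.fst_add, Prod.snd_add]
          ring
        · simp only [Prod.smul_fst, Prod.smul_snd, smul_eq_mul]
          ring
      exact convex_halfSpace_le hl _
  have hmem : ((p : ℝ), (q : ℝ)) ∈ {z : ℝ × ℝ | 0 ≤ z.2 ∧ z.2 ≤ (q : ℝ) ∧ 0 ≤ z.1 ∧
      z.1 ≤ (p : ℝ) + (q : ℝ) - z.2} := by
    refine ⟨Nat.cast_nonneg q, le_rfl, Nat.cast_nonneg p, ?_⟩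
    simp
  rw [← h] at hmem
  have h2 := hsub hmem
  simp only [Set.mem_setOf_eq] at h2
  linarith

lemma coeff_Xk_mul (k : ℕ) (Q : P2) (r : Fin 2 →₀ ℕ) : coeff r (X 1 ^ k * Q) =
    if k ≤ r 1 then coeff (e (r 0) (r 1 - k)) Q else 0 := by
  rw [X_pow_eq_monomial, coeff_monomial_mul']
  by_cases h : k ≤ r 1
  · rw [if_pos h, if_pos (by
      intro i
      fin_cases i
      · simp
      · simpa using h), one_mul]
    congr 1
    rw [ext_iff']
    constructor
    · simp
    · simp
  · rw [if_neg h, if_neg]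
    intro h'
    apply h
    have := h' 1
    simpa using this

/-- structure of the homogeneous components -/
lemma comp_struct (F : P2) (m n : ℕ) (hFs : ∀ r, coeff r F ≠ 0 → r 1 ≤ n ∧ r 0 + r 1 ≤ m + n)
    (hdiv : ∀ i : ℕ, i ≤ n → ((X 0 + X 1 : P2) ^ (n - i)) ∣ homogeneousComponent (m + n - i) F)
    (d : ℕ) (hne : homogeneousComponent d F ≠ 0) : d ≤ m + n ∧ (m ≤ d → ∃ H : P2,
      homogeneousComponent d F = (X 0 + X 1) ^ (d - m) * H ∧ H ≠ 0 ∧ H.totalDegree = m) := by
  have hd : d ≤ m + n := by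
    obtain ⟨s, hs⟩ := exists_coeff_ne_zero hne
    rw [coeff_homogeneousComponent] at hs
    split_ifs at hs with h
    · have h1 := (hFs s hs).2
      rw [Finsupp.degree_eq_sum, Fin.sum_univ_two] at h
      omega
    · exact absurd rfl hs
  refine ⟨hd, fun hmd => ?_⟩
  have h1 := hdiv (m + n - d) (by omega)
  have e1 : n - (m + n - d) = d - m := by omega
  have e2 : m + n - (m + n - d) = d := by omega
  rw [e1, e2] at h1
  obtain ⟨H, hH⟩ := h1
  have hH0 : H ≠ 0 := by
    rintro rfl
    rw [mul_zero] at hH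
    exact hne hH
  have hX : (X 0 + X 1 : P2) ≠ 0 := by
    intro h
    have h2 := T_add
    rw [h, map_zero] at h2
    exact X_ne_zero 1 h2.symm
  refine ⟨H, hH, hH0, ?_⟩
  have h3 : (homogeneousComponent d F).totalDegree = d :=
    (homogeneousComponent_isHomogeneous d F).totalDegree hne
  have h4 : ((X 0 + X 1 : P2) ^ (d - m)).totalDegree = d - m := by
    have h5 : (X 0 + X 1 : P2).IsHomogeneous 1 := (isHomogeneous_X ℂ 0).add (isHomogeneous_X ℂ 1)
    have h6 := h5.pow (d - m)
    rw [one_mul] at h6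
    exact h6.totalDegree (pow_ne_zero _ hX)
  rw [hH, totalDegree_mul_of_isDomain (pow_ne_zero _ hX) hH0, h4] at h3
  omega

lemma claim (F : P2) (m n : ℕ) (hFs : ∀ r, coeff r F ≠ 0 → r 1 ≤ n ∧ r 0 + r 1 ≤ m + n)
    (hdiv : ∀ i : ℕ, i ≤ n → ((X 0 + X 1 : P2) ^ (n - i)) ∣ homogeneousComponent (m + n - i) F)
    (d : ℕ) (r : Fin 2 →₀ ℕ) (hr : coeff r (T (homogeneousComponent d F)) ≠ 0) :
    r 0 < m ∨ (r 0 = m ∧ r 1 + m = d ∧ d ≤ m + n) := by
  have hne : homogeneousComponent d F ≠ 0 := by
    intro h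
    rw [h, map_zero] at hr
    exact hr (coeff_zero r)
  obtain ⟨hd, hs⟩ := comp_struct F m n hFs hdiv d hne
  by_cases hmd : m ≤ d
  · obtain ⟨H, hH, hH0, hHd⟩ := hs hmd
    rw [hH, map_mul, map_pow, T_add, coeff_Xk_mul] at hr
    split_ifs at hr with hk
    · have h1 := (td_iff m (T H)).1 (hHd ▸ td_T H) _ hr
      rw [e_zero, e_one] at h1
      omega
    · exact absurd rfl hr
  · left
    have h1 : (T (homogeneousComponent d F)).totalDegree ≤ d :=
      (td_T _).trans (homogeneousComponent_isHomogeneous d F).totalDegree_le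
    have h2 := (td_iff d _).1 h1 r hr
    omega

lemma coeff_pow (m : ℕ) : coeff (e m 0) ((X 0 - 1 : P2) ^ m) = 1 := by
  have hX : ∀ k : ℕ, ((X 0 - 1 : P2) ^ k).totalDegree ≤ k := by
    intro k
    refine (totalDegree_pow _ _).trans ?_
    have h1 : (X 0 - 1 : P2).totalDegree ≤ 1 := by
      refine (totalDegree_sub _ _).trans (max_le (tdX 0) ?_)
      rw [totalDegree_one]
      exact Nat.zero_le _
    exact (Nat.mul_le_mul_left _ h1).trans (by omega)
  induction m with
  | zero =>
    have : (e 0 0 : Fin 2 →₀ ℕ) = 0 := by simp [e]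
    rw [pow_zero, this, coeff_zero_one]
  | succ m ih =>
    have h1 : ((X 0 - 1 : P2) ^ (m + 1)) = X 0 * (X 0 - 1) ^ m - (X 0 - 1) ^ m := by ring
    have h2 : (e (m + 1) 0 : Fin 2 →₀ ℕ) = Finsupp.single 0 1 + e m 0 := by
      rw [ext_iff']
      constructor
      · simp only [e_zero, Finsupp.add_apply, Finsupp.single_eq_same]
        omega
      · simp
    have h3 : coeff (e (m + 1) 0) ((X 0 - 1 : P2) ^ m) = 0 := by
      by_contra h
      have h4 := (td_iff m _).1 (hX m) _ h
      rw [e_zero, e_one] at h4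
      omega
    rw [h1, coeff_sub, h3, h2, coeff_X_mul, ih, sub_zero]

theorem main : S_TR := by
  intro a b m n hm hmn ham han hgcd ha hab F G hF hlt hdiv hG
  obtain ⟨hc, hFs⟩ := corner F m n (by omega) hF
  have hM1 : 0 < b * m / a := by
    obtain ⟨m', rfl⟩ := ham
    have h1 : 0 < m' := Nat.pos_of_mul_pos_left hm
    have h2 : b * (a * m') / a = b * m' := by
      rw [show b * (a * m') = a * (b * m') by ring, Nat.mul_div_cancel_left _ (by omega)]
    rw [h2]
    exact Nat.mul_pos (by omega) h1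
  obtain ⟨hcG, hGs⟩ := corner G (b * m / a) (b * n / a) (Nat.add_pos_left hM1 _) hG
  refine ⟨?_, ?_, ?_, ?_⟩
  · have h1 := top_T F (m + n) (fun r hr => (hFs r hr).2) ⟨e m n, hc, by simp⟩
    push_cast at h1
    exact h1
  · exact top_T G (b * m / a + b * n / a) (fun r hr => (hGs r hr).2) ⟨_, hcG, by simp⟩
  · change coeff (e m n) (T F) ≠ 0
    have hsum : T F = ∑ d ∈ Finset.range (F.totalDegree + 1), T (homogeneousComponent d F) := by
      conv_lhs => rw [← sum_homogeneousComponent F]
      rw [map_sum]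
    have hmem : m + n ∈ Finset.range (F.totalDegree + 1) := by
      have h1 := (td_iff F.totalDegree F).1 le_rfl _ hc
      rw [e_zero, e_one] at h1
      rw [Finset.mem_range]
      omega
    have h1 : coeff (e m n) (T F) = coeff (e m n) (T (homogeneousComponent (m + n) F)) := by
      rw [hsum, coeff_sum]
      refine Finset.sum_eq_single (m + n) ?_ (fun h => absurd hmem h)
      intro d _ hd
      by_contra h
      have h2 := claim F m n hFs hdiv d _ h
      rw [e_zero, e_one] at h2
      omega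
    rw [h1]
    have hne : homogeneousComponent (m + n) F ≠ 0 := by
      intro h
      have h2 := coeff_homogeneousComponent (m + n) F (e m n)
      rw [h, coeff_zero, if_pos (by rw [Finsupp.degree_eq_sum, Fin.sum_univ_two, e_zero, e_one])]
        at h2
      exact hc h2.symm
    obtain ⟨H, hH, hH0, hHd⟩ := (comp_struct F m n hFs hdiv _ hne).2 (by omega)
    have e1 : m + n - m = n := by omega
    rw [e1] at hH
    -- the degree in the second variable
    have hX : (X 0 + X 1 : P2) ≠ 0 := by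
      intro h
      have h2 := T_add
      rw [h, map_zero] at h2
      exact X_ne_zero 1 h2.symm
    have hdeg : degreeOf 1 H = 0 := by
      have h2 : degreeOf 1 (homogeneousComponent (m + n) F) ≤ n := by
        rw [degreeOf_le_iff]
        intro r hr
        rw [mem_support_iff, coeff_homogeneousComponent] at hr
        split_ifs at hr
        · exact (hFs r hr).1
        · exact absurd rfl hr
      rw [hH, degreeOf_mul_eq (pow_ne_zero _ hX) hH0, degreeOf_pow_eq _ _ _ hX] at h2
      have h3 : 1 ≤ degreeOf 1 (X 0 + X 1 : P2) := by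
        have h4 := (degreeOf_le_iff (n := (1 : Fin 2)) (f := (X 0 + X 1 : P2))).1 le_rfl
          (Finsupp.single 1 1) (by
            rw [mem_support_iff, coeff_add, coeff_X', coeff_X', if_pos rfl, if_neg]
            · simp
            · intro h
              have := DFunLike.congr_fun h 0
              simp at this)
        simpa using h4
      have h5 : n * 1 ≤ n * degreeOf 1 (X 0 + X 1 : P2) := Nat.mul_le_mul_left _ h3
      omega
    have hHs : ∀ r, coeff r H ≠ 0 → r 1 = 0 ∧ r 0 ≤ m := by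
      intro r hr
      have h2 := (degreeOf_le_iff (n := (1 : Fin 2)) (f := H)).1 le_rfl r (mem_support_iff.2 hr)
      have h3 := (td_iff m H).1 hHd.le r hr
      omega
    have hh : coeff (e m 0) H ≠ 0 := by
      intro h
      have h2 : H.totalDegree ≤ m - 1 := by
        rw [td_iff]
        intro r hr
        obtain ⟨h3, h4⟩ := hHs r hr
        have h5 : r 0 ≠ m := by
          intro h5
          apply hr
          rw [eq_e r, h3, h5, h]
        omega
      omega
    -- the rest of H
    obtain ⟨H', hH'⟩ : ∃ H' : P2, H = H' + C (coeff (e m 0) H) * X 0 ^ m :=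
      ⟨H - C (coeff (e m 0) H) * X 0 ^ m, by ring⟩
    have hcX : ∀ r : Fin 2 →₀ ℕ, coeff r (C (coeff (e m 0) H) * X 0 ^ m : P2) =
        if e m 0 = r then coeff (e m 0) H else 0 := by
      intro r
      have h2 : (e m 0 : Fin 2 →₀ ℕ) = Finsupp.single 0 m := by simp [e]
      rw [C_mul_X_pow_eq_monomial, coeff_monomial, h2]
    have hH's : H'.totalDegree ≤ m - 1 := by
      rw [td_iff]
      intro r hr
      have h2 : coeff r H' = coeff r H - coeff r (C (coeff (e m 0) H) * X 0 ^ m : P2) := by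
        conv_rhs => enter [1]; rw [hH']
        rw [coeff_add]
        ring
      rw [h2, hcX] at hr
      by_cases h3 : e m 0 = r
      · rw [if_pos h3, ← h3, sub_self] at hr
        exact absurd rfl hr
      · rw [if_neg h3, sub_zero] at hr
        obtain ⟨h4, h5⟩ := hHs r hr
        have h6 : r 0 ≠ m := by
          intro h6
          apply h3
          rw [eq_e r, h4, h6]
        omega
    have hTH : coeff (e m 0) (T H) = coeff (e m 0) H := by
      have h2 : T H = T H' + C (coeff (e m 0) H) * (X 0 - 1) ^ m := by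
        conv_lhs => rw [hH']
        rw [map_add, map_mul, map_pow]
        congr 2
        · exact aeval_C _ _
        · rw [T, aeval_X]
          simp
      rw [h2, coeff_add, coeff_C_mul, coeff_pow, mul_one]
      have h3 : coeff (e m 0) (T H') = 0 := by
        by_contra h
        have h4 := (td_iff (m - 1) _).1 ((td_T H').trans hH's) _ h
        rw [e_zero, e_one] at h4
        omega
      rw [h3, zero_add]
    rw [hH, map_mul, map_pow, T_add, coeff_Xk_mul, e_one, if_pos le_rfl, e_zero, Nat.sub_self, hTH]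
    exact hh
  · intro r hr
    change coeff r (T F) ≠ 0 at hr
    have hsum : T F = ∑ d ∈ Finset.range (F.totalDegree + 1), T (homogeneousComponent d F) := by
      conv_lhs => rw [← sum_homogeneousComponent F]
      rw [map_sum]
    rw [hsum, coeff_sum] at hr
    obtain ⟨d, -, hd⟩ := Finset.exists_ne_zero_of_sum_ne_zero hr
    have h1 := claim F m n hFs hdiv d r hd
    rcases h1 with h1 | ⟨h1, h2, h3⟩
    · left
      push_cast
      omega
    · right
      refine ⟨?_, by omega⟩
      rw [h1]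
      ring

end Pool.Agent.W924.J6
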